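import Pool.Agent.Helper98.GX.St2

/-!
# Project GX, module CBV: the total degree is a vertex valuation
-/

set_option autoImplicit false

open scoped BigOperators

namespace Pool.Agent.Helper16.GX

open Pool.Agent.Helper98.GX
open Pool.Agent.Helper53.CX (DivVal LinSys IsNefCartier)

private lemma ord_one {K : Type} [Field K] [Algebra ℂ K] (v : DivVal K) : v.ord 1 = 0 := by
  have h := v.ord_mul 1 1 one_ne_zero one_ne_zero
  rw [mul_one] at h
  omega

private lemma ord_pow {K : Type} [Field K] [Algebra ℂ K] (v : DivVal K) {f : K} (hf : f ≠ 0)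
    (n : ℕ) : v.ord (f ^ n) = (n : ℤ) * v.ord f := by
  induction n with
  | zero => simp [ord_one]
  | succ n ih =>
    rw [pow_succ, v.ord_mul _ _ (pow_ne_zero _ hf) hf, ih]
    push_cast
    ring

private lemma ord_prod {K : Type} [Field K] [Algebra ℂ K] (v : DivVal K) {ι : Type}
    (s : Finset ι) (f : ι → K) (hf : ∀ i ∈ s, f i ≠ 0) :
    v.ord (∏ i ∈ s, f i) = ∑ i ∈ s, v.ord (f i) := by
  classical
  induction s using Finset.induction_on with
  | empty => simp [ord_one]
  | insert a s ha ih =>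
    rw [Finset.prod_insert ha, Finset.sum_insert ha,
      v.ord_mul _ _ (hf a (Finset.mem_insert_self _ _))
        (Finset.prod_ne_zero_iff.2 fun i hi => hf i (Finset.mem_insert_of_mem hi)),
      ih fun i hi => hf i (Finset.mem_insert_of_mem hi)]

private lemma ord_add_div {K : Type} [Field K] [Algebra ℂ K] (G : LinSys K) {g : K}
    (hg : g ∈ G.gens) (v : DivVal K) : 0 ≤ v.ord g + G.div v := by
  have h : - v.ord g ≤ G.div v := Finset.le_sup' (fun f => - v.ord f) hg
  omega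

theorem hCBV (hFSP : StFSP) (hGRO : StGRO) (hCBD : StCBD) : StCBV := by
  intro K _ _ V r B w
  obtain ⟨g1, hg1⟩ := V.G.nonempty
  have hg10 : g1 ≠ 0 := V.G.ne_zero g1 hg1
  have hgro : ∀ k : Fin r, ∃ (c : ℕ) (ψ : K), ψ ≠ 0 ∧
      ∀ v : DivVal K, (B.H k).div v ≤ v.ord ψ + (c : ℤ) * V.G.div v := fun k => hGRO K V (B.H k)
  choose cc ψ hψ0 hψ using hgro
  have hlin : ∀ f : K, f ≠ 0 →
      ∑ᶠ p ∈ V.primes, ((∑ k, B.deg p k : ℕ) : ℤ) * p.ord f = 0 := by
    intro f hf
    have hfin := hFSP K V f hf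
    have key : ∀ a : DivVal K → ℤ, ∑ᶠ p ∈ V.primes, a p * p.ord f =
        ∑ p ∈ hfin.toFinset, a p * p.ord f := by
      intro a
      apply finsum_mem_eq_sum_of_inter_support_eq
      ext p
      simp only [Set.mem_inter_iff, Function.mem_support, Finset.mem_coe, Set.Finite.mem_toFinset,
        Set.mem_ofPred_eq]
      constructor
      · rintro ⟨h1, h2⟩
        exact ⟨⟨h1, right_ne_zero_of_mul h2⟩, h2⟩
      · rintro ⟨h1, h2⟩
        exact ⟨h1.1, h2⟩
    rw [key fun p => ((∑ k, B.deg p k : ℕ) : ℤ)]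
    have h1 : ∀ l : Fin r, ∑ p ∈ hfin.toFinset, (B.deg p l : ℤ) * p.ord f = 0 := by
      intro l
      rw [← key fun p => (B.deg p l : ℤ)]
      exact (hCBD K V r B).1 f hf l
    have h2 : ∑ p ∈ hfin.toFinset, ((∑ k, B.deg p k : ℕ) : ℤ) * p.ord f =
        ∑ l : Fin r, ∑ p ∈ hfin.toFinset, (B.deg p l : ℤ) * p.ord f := by
      rw [Finset.sum_comm]
      refine Finset.sum_congr rfl fun p _ => ?_
      push_cast
      rw [Finset.sum_mul]
    rw [h2]
    exact Finset.sum_eq_zero fun l _ => h1 l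
  refine ⟨⟨fun p => ∑ k, B.deg p k, 0, w, B.deg_pos, fun f hf => hFSP K V f hf, ?_,
    ⟨∑ k, cc k, ?_⟩⟩, rfl, rfl, fun p => rfl⟩
  · intro f hf
    rw [hlin f hf]
    simp
  · intro p hp
    obtain ⟨φ, hφ0, hφ1, hφ2⟩ := B.sec p hp
    have hfac : ∀ k : Fin r, ψ k * g1 ^ (∑ k, cc k - cc k) ≠ 0 := fun k =>
      mul_ne_zero (hψ0 k) (pow_ne_zero _ hg10)
    have hfac' : ∀ k : Fin r, (ψ k * g1 ^ (∑ k, cc k - cc k)) ^ (B.deg p k) ≠ 0 := fun k =>
      pow_ne_zero _ (hfac k)
    have hbound : ∀ q : DivVal K, q.ord φ + ∑ k, (B.deg p k : ℤ) * (B.H k).div q ≤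
        q.ord (φ * ∏ k, (ψ k * g1 ^ (∑ k, cc k - cc k)) ^ (B.deg p k)) +
          (((∑ k, cc k) * (∑ k, B.deg p k) : ℕ) : ℤ) * V.G.div q := by
      intro q
      rw [q.ord_mul _ _ hφ0 (Finset.prod_ne_zero_iff.2 fun k _ => hfac' k),
        ord_prod q _ _ fun k _ => hfac' k]
      have e1 : (((∑ k, cc k) * (∑ k, B.deg p k) : ℕ) : ℤ) * V.G.div q =
          ∑ k, (B.deg p k : ℤ) * (((∑ k, cc k : ℕ) : ℤ) * V.G.div q) := by
        rw [← Finset.sum_mul]
        push_cast
        ring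
      rw [e1, add_assoc, ← Finset.sum_add_distrib]
      refine add_le_add le_rfl (Finset.sum_le_sum fun k _ => ?_)
      rw [ord_pow q (hfac k), q.ord_mul _ _ (hψ0 k) (pow_ne_zero _ hg10), ord_pow q hg10,
        ← mul_add]
      refine mul_le_mul_of_nonneg_left ?_ (Int.natCast_nonneg _)
      have hck : cc k ≤ ∑ k, cc k :=
        Finset.single_le_sum (f := cc) (fun _ _ => Nat.zero_le _) (Finset.mem_univ k)
      rw [Nat.cast_sub hck]
      have h1 := hψ k q
      have h2 := ord_add_div V.G hg1 q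
      have h3 : (0 : ℤ) ≤ (((∑ k, cc k : ℕ) : ℤ) - (cc k : ℤ)) * (q.ord g1 + V.G.div q) := by
        refine mul_nonneg ?_ h2
        have : (cc k : ℤ) ≤ ((∑ k, cc k : ℕ) : ℤ) := by exact_mod_cast hck
        linarith
      linarith
    refine ⟨φ * ∏ k, (ψ k * g1 ^ (∑ k, cc k - cc k)) ^ (B.deg p k),
      mul_ne_zero hφ0 (Finset.prod_ne_zero_iff.2 fun k _ => hfac' k), ?_, ?_⟩
    · have := hbound p
      rw [hφ1] at this
      linarith
    · intro q hq
      by_cases hqp : q = p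
      · subst hqp
        have := hbound q
        rw [hφ1] at this
        linarith
      · have := hbound q
        rw [hφ2 q hq hqp] at this
        exact this

end Pool.Agent.Helper16.GX
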